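import Mathlib
import Pool.Graph.R_seed8.Y1.CT.Thms
import Pool.Agent.H65.CM.NoRel

/-!
# The noncommutative conjecture of Beilinson and products with abelian varieties whose Frobenius
fields are Galois CM fields with reduced odd group algebra

Let `p` be a prime number, `q = p ^ a`, and let `π i` (`i` in a finite set) be Weil numbers for `q` which
generate CM fields `K i`. By Honda and Tate they correspond to abelian varieties `A i` over finite
fields. We suppose (`IsMixedFamily`) that for the `i` in a set `R`

* `K i` is Galois over `ℚ` and the odd part of the rational group algebra of its Galois group (the
  elements `x` with `c x = - x`, `c` the complex conjugation) contains no `x ≠ 0` with `x ^ 2 = 0`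
  (`OddReduced`); by the third part of the theorem this is so if the Galois group has an abelian
  subgroup `B` such that all elements outside `B` have square `c` (`DicyclicType`): the abelian CM
  fields and the Galois CM fields with quaternion, dicyclic and generalized dicyclic groups;
* `π i` has no short relation (`NoShort`): for a nonempty set `S` of complex embeddings of `K i` which
  contains at most one embedding of each pair of conjugate embeddings, no positive power of
  `∏_{φ ∈ S} φ(π i) ^ 2` is equal to the same power of `q ^ |S|`;
* no two of these `K i` have a CM field in common (`RealIntersection`);

and that the other `π i` are simple in the sense of the library (`IsSimpleWeil`: not supersingular, with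
irreducible odd functions or of degree `2 g` for an odd prime number `g`, all powers of `π i` generate
`K i` and there is no Weil relation), have different fields (`IsDifferent`) and fields without embeddings
into the `K k`, `k ∈ R`, and without imaginary quadratic fields in common with them. The case `R = I` (all
factors of the new kind) is included. There are no conditions on the slopes of the `π i`, `i ∈ R`, and the
odd functions on the embeddings of `K i` are in general not irreducible.

Let `f i` be monic polynomials whose complex roots are conjugates of `π i` (`IsPolyOf`), for instance
powers of the characteristic polynomials of Frobenius of the `A i`.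
Let `A` be an abelian variety over the field with `Q = q ^ s`
elements which is isogenous to a product of powers of abelian varieties coming from the field with
`q` elements, with characteristic polynomials `f i`, and let `Z` be **any** smooth projective variety
over the field with `Q` elements such that

* the eigenvalues `ρ` of Frobenius on the cohomology of `Z` and their conjugates are independent of
  the fields `K i` (`Independent`): for each complex embedding `ψ` of `K i` there is an automorphism
  `τ` of `ℂ` which fixes a power of `ρ` and is the complex conjugation on `ψ (K i)`. By the second part of
  the theorem this is so, for a Galois CM field `K i`, for all elements `ρ` of Galois number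
  fields which have no CM field in common with `K i`;
* homologically trivial self-correspondences of degree zero of `A × Z` are nilpotent, for instance
  the motive of `Z` is finite-dimensional in the sense of Kimura and O'Sullivan. This is known for
  all varieties dominated by products of curves, and for their products with `A`.

Let `𝒜` be a smooth proper dg category whose noncommutative motive with rational coefficients is a
direct summand of the one of `Z`, for instance the category of perfect complexes on `Z`, or a
component of a semi-orthogonal decomposition of it. It is given by an idempotent `e` in the ring
`K_0(Z × Z)_ℚ`, which is identified with `CH(Z × Z)_ℚ` (all degrees together) by the Chern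
character multiplied by the square root of the Todd class. The noncommutative motive of the dg
category `perf(A) ⊗ 𝒜` is `(A × Z, 1 × e)`.

There are finitely many products `D j` of divisors on `A` such that
`K_0(perf(A) ⊗ 𝒜)_ℚ = ⨁ D j × K_0(𝒜)_ℚ`, and the same for the kernels of the Euler pairings
`χ_ℚ`. In particular **`Ker (χ_ℚ) = 0` for `perf(A) ⊗ 𝒜` if and only if `Ker (χ_ℚ) = 0` for `𝒜`:
the noncommutative Beilinson conjecture for `perf(A) ⊗ 𝒜` is equivalent to the one for `𝒜`.**
The Frobenius endomorphism acts on `CH^i(A × Z)_ℚ` as multiplication by `Q ^ i`.

The framework (`TheoryData`, `IsChow`, `IsWeil`, `NCNumTimes`) is the one of the library: the Chow groups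
`C` with their pull-backs, push-forwards and products, and a Weil cohomology theory `H` with coefficients
in an algebraically closed field, on a class `𝒱` of smooth proper varieties over `k`.

The library results of this kind (`IrreducibleFields`, `PrimeDimensionFactors`, `AllCMTypesTimes`,
`TypicalFields`) suppose irreducible odd functions, prime dimensions, slopes in general position or
Galois groups close to the largest possible; here the Galois groups are small.
-/

set_option autoImplicit false

namespace Pool.Agent.Results.MP_dd457d_ag.ReducedGaloisTimes

open NumberField Polynomial IntermediateField Pool.Agent.Y1.CT Pool.Agent.H65.CM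

/-- **The noncommutative conjecture of Beilinson for `perf(A) ⊗ 𝒜` is equivalent to the one for `𝒜`,
for all products `A` of powers of abelian varieties with Galois Frobenius fields with reduced odd group
algebra and without short relations (and of abelian varieties of odd prime dimensions) and all
independent varieties `Z`.** -/
theorem result :
    (∀ (p : ℕ) [Fact p.Prime] (a : ℕ), 0 < a → ∀ (I : Type) [Fintype I] (K : I → Type)
      [∀ i, Field (K i)] [∀ i, NumberField (K i)] [∀ i, IsCMField (K i)] (π : ∀ i, K i)
      (f : I → ℤ[X]) (R : Set I),
      (∀ i, π i * IsCMField.complexConj (K i) (π i) = (p : K i) ^ a) →
      IsMixedFamily p a R K π → (∀ i, IsPolyOf (π i) (f i)) → NCNumTimes K (p ^ a) f) ∧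
    (∀ (K E : Type) [Field K] [NumberField K] [IsGalois ℚ K] [Field E] [NumberField E]
      [IsGalois ℚ E], RealIntersection K E → ∀ (ψ : E →+* ℂ) (y : E), y ≠ 0 →
        Independent (fun _ : Unit => K) (ψ y)) ∧
    (∀ (K : Type) [Field K] [NumberField K], DicyclicType K → OddReduced K) := by
  refine ⟨?_, ?_, fun K _ _ h => OddReduced.of_dicyclic h⟩
  · intro p _ a ha I _ K _ _ _ π f R hw hR hf
    have hw' : ∀ i, π i * IsCMField.complexConj (K i) (π i) = ((p ^ a : ℕ) : K i) := fun i => by
      rw [hw i]
      push_cast
      rfl
    exact ncNumTimes (Nat.one_lt_pow ha.ne' (Fact.out : Nat.Prime _).one_lt)
      (noRel_angle (pow_ne_zero a (Fact.out : p.Prime).ne_zero) hw' (angle_of_mixed ha hw hR) hf)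
  · intro K E _ _ _ _ _ _ h ψ y hy
    obtain ⟨τ, h1, h2⟩ := exists_flip h
    refine ⟨(map_ne_zero ψ).2 hy, fun _ φ => ⟨τ, 1, one_pos, by rw [pow_one, h1], fun x => ?_⟩⟩
    rw [ComplexEmbedding.conjugate_coe_eq]
    exact h2 φ x

end Pool.Agent.Results.MP_dd457d_ag.ReducedGaloisTimes
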